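import Mathlib

set_option autoImplicit false

namespace Pool.Agent.Results.MP_e57dcf_an.NotDense

open Matrix Topology

/-- Two vectors weakly have the same phase. -/
def WeakSamePhase {n : ℕ} (x y : Fin n → ℝ) : Prop :=
  ∃ θ : ℝ, (θ = 1 ∨ θ = -1) ∧
    ∀ k, x k * y k ≠ 0 → Real.sign (x k) = θ * Real.sign (y k)

/-- The family `f` does weak phase retrieval. -/
def WeakPhaseRetrieval {n m : ℕ} (f : Fin m → Fin n → ℝ) : Prop :=
  ∀ x y : Fin n → ℝ, (∀ i, |x ⬝ᵥ f i| = |y ⬝ᵥ f i|) → WeakSamePhase x y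

/-- The set of frames for `ℝ ^ n` with `m` vectors (families spanning `ℝ ^ n`). -/
def frames (n m : ℕ) : Set (Fin m → Fin n → ℝ) :=
  {f | Submodule.span ℝ (Set.range f) = ⊤}

/-- The frames with `2 n - 2` vectors doing weak phase retrieval. -/
def W (n : ℕ) : Set (Fin (2 * n - 2) → Fin n → ℝ) :=
  {f | f ∈ frames n (2 * n - 2) ∧ WeakPhaseRetrieval f}

theorem normal {n : ℕ} {ι : Type} [Fintype ι] (hι : Fintype.card ι < n) (p : Fin n)
    (σ : ι → Fin n) (hσ : ∀ k, k ≠ p → ∃ i, σ i = k) (a : ι → Fin n → ℝ)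
    (ha : ∀ i k, |(Pi.single (σ i) (1 : ℝ) : Fin n → ℝ) k - a i k| ≤ 1 / ((n : ℝ) + 1)) :
    ∃ u : Fin n → ℝ, u p = 1 ∧ (∀ k, k ≠ p → |u k| < 1) ∧ ∀ i, u ⬝ᵥ a i = 0 := by
  classical
  let F : (Fin n → ℝ) →ₗ[ℝ] (ι → ℝ) :=
    { toFun := fun u i => u ⬝ᵥ a i
      map_add' := fun u v => by funext i; simp [add_dotProduct]
      map_smul' := fun c u => by funext i; simp [smul_dotProduct] }
  have hF : LinearMap.ker F ≠ ⊥ := LinearMap.ker_ne_bot_of_finrank_lt (by simpa using hι)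
  obtain ⟨u, hu, hu0⟩ := (LinearMap.ker F).ne_bot_iff.mp hF
  have hu1 : ∀ i, u ⬝ᵥ a i = 0 := fun i => congrFun (LinearMap.mem_ker.mp hu) i
  have : Nonempty (Fin n) := ⟨p⟩
  obtain ⟨k₀, hk₀⟩ := Finite.exists_max (fun k => |u k|)
  have hMpos : 0 < |u k₀| := by
    by_contra hcon
    push Not at hcon
    apply hu0
    funext k
    have := (hk₀ k).trans hcon
    simpa using this
  have hlt : ∀ k, k ≠ p → |u k| < |u k₀| := by
    intro k hk
    obtain ⟨i, rfl⟩ := hσ k hk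
    have h1 : u (σ i) = ∑ l, u l * ((Pi.single (σ i) (1 : ℝ) : Fin n → ℝ) l - a i l) := by
      have h2 := hu1 i
      simp only [dotProduct] at h2
      simp only [mul_sub]
      rw [Finset.sum_sub_distrib, h2, sub_zero]
      simp [Pi.single_apply]
    have hn : (0 : ℝ) < (n : ℝ) + 1 := by positivity
    calc |u (σ i)| = |∑ l, u l * ((Pi.single (σ i) (1 : ℝ) : Fin n → ℝ) l - a i l)| := by rw [← h1]
      _ ≤ ∑ l, |u l * ((Pi.single (σ i) (1 : ℝ) : Fin n → ℝ) l - a i l)| :=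
          Finset.abs_sum_le_sum_abs _ _
      _ ≤ ∑ _l : Fin n, |u k₀| * (1 / ((n : ℝ) + 1)) := by
          apply Finset.sum_le_sum
          intro l _
          rw [abs_mul]
          exact mul_le_mul (hk₀ l) (ha i l) (abs_nonneg _) (abs_nonneg _)
      _ = |u k₀| * (n / ((n : ℝ) + 1)) := by
          rw [Finset.sum_const, Finset.card_univ, Fintype.card_fin, nsmul_eq_mul]; ring
      _ < |u k₀| * 1 := by
          apply mul_lt_mul_of_pos_left _ hMpos
          rw [div_lt_one hn]; linarith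
      _ = |u k₀| := mul_one _
  have hk₀p : k₀ = p := by
    by_contra h
    exact lt_irrefl _ (hlt k₀ h)
  subst hk₀p
  have hne : u k₀ ≠ 0 := abs_pos.mp hMpos
  refine ⟨(u k₀)⁻¹ • u, by simp [hne], ?_, ?_⟩
  · intro k hk
    rw [Pi.smul_apply, smul_eq_mul, abs_mul, abs_inv, inv_mul_lt_iff₀ hMpos, mul_one]
    exact hlt k hk
  · intro i
    rw [smul_dotProduct, hu1 i, smul_zero]

/-- For every `n ≥ 2`, the set of frames of `2 n - 2` vectors doing weak phase retrieval is not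
dense in the set of all frames of `2 n - 2` vectors. -/
theorem result (n : ℕ) (hn : 2 ≤ n) : ¬ (frames n (2 * n - 2) ⊆ closure (W n)) := by
  classical
  intro hsub
  let e : Fin n → Fin n → ℝ := fun j => Pi.single j 1
  let i0 : Fin n := ⟨0, by omega⟩
  let i1 : Fin n := ⟨1, by omega⟩
  -- first half
  let σ : Fin (n - 1) → Fin n := fun i => ⟨i + 1, by omega⟩
  -- second half
  let τ : Fin (n - 1) → Fin n := fun i => if (i : ℕ) = 0 then i0 else ⟨i + 1, by omega⟩
  let A : Fin (n - 1) → Fin (2 * n - 2) := fun i => ⟨i, by omega⟩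
  let B : Fin (n - 1) → Fin (2 * n - 2) := fun i => ⟨i + (n - 1), by omega⟩
  let f₀ : Fin (2 * n - 2) → Fin n → ℝ := fun i =>
    if h : (i : ℕ) < n - 1 then e (σ ⟨i, h⟩) else e (τ ⟨i - (n - 1), by omega⟩)
  have hA : ∀ i, f₀ (A i) = e (σ i) := by
    intro i
    simp only [f₀, A]
    rw [dif_pos i.2]
  have hB : ∀ i, f₀ (B i) = e (τ i) := by
    intro i
    simp only [f₀, B]
    rw [dif_neg (by omega)]
    congr 2
    ext
    simp
  have hσ : ∀ k, k ≠ i0 → ∃ i, σ i = k := by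
    intro k hk
    have : (k : ℕ) ≠ 0 := fun h => hk (Fin.ext h)
    refine ⟨⟨k - 1, by omega⟩, ?_⟩
    ext
    simp [σ]
    omega
  have hτ : ∀ k, k ≠ i1 → ∃ i, τ i = k := by
    intro k hk
    have hk1 : (k : ℕ) ≠ 1 := fun h => hk (Fin.ext h)
    by_cases h0 : (k : ℕ) = 0
    · refine ⟨⟨0, by omega⟩, ?_⟩
      simp only [τ, if_true]
      exact (Fin.ext h0).symm
    · refine ⟨⟨k - 1, by omega⟩, ?_⟩
      have : (k : ℕ) - 1 ≠ 0 := by omega
      simp only [τ, if_neg this]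
      ext
      simp
      omega
  have hf₀ : f₀ ∈ frames n (2 * n - 2) := by
    simp only [frames, Set.mem_ofPred_eq]
    rw [eq_top_iff, ← (Pi.basisFun ℝ (Fin n)).span_eq]
    apply Submodule.span_mono
    rintro _ ⟨k, rfl⟩
    rw [Pi.basisFun_apply]
    by_cases hk : k = i0
    · refine ⟨B ⟨0, by omega⟩, ?_⟩
      rw [hB, hk]
      simp [e, τ]
    · obtain ⟨i, hi⟩ := hσ k hk
      exact ⟨A i, by rw [hA, hi]⟩
  have hcl := hsub hf₀
  rw [mem_closure_iff_nhds] at hcl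
  have hnn : (0 : ℝ) < 1 / ((n : ℝ) + 1) := by positivity
  obtain ⟨f, hf1, hf2⟩ := hcl (Metric.ball f₀ (1 / ((n : ℝ) + 1))) (Metric.ball_mem_nhds _ hnn)
  have hclose : ∀ i k, |f₀ i k - f i k| ≤ 1 / ((n : ℝ) + 1) := by
    intro i k
    have h1 := (dist_pi_lt_iff hnn).mp (Metric.mem_ball.mp hf1) i
    have h2 := (dist_pi_lt_iff hnn).mp h1 k
    rw [dist_comm, Real.dist_eq] at h2
    exact h2.le
  obtain ⟨u, hu1, hu2, hu3⟩ := normal (by simp; omega) i0 σ hσ (fun i => f (A i)) (by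
    intro i k
    have := hclose (A i) k
    rwa [hA] at this)
  obtain ⟨v, hv1, hv2, hv3⟩ := normal (by simp; omega) i1 τ hτ (fun i => f (B i)) (by
    intro i k
    have := hclose (B i) k
    rwa [hB] at this)
  have hphase := hf2.2 (u + v) (u - v) (by
    intro i
    by_cases h : (i : ℕ) < n - 1
    · have h1 : i = A ⟨i, h⟩ := rfl
      have h2 : u ⬝ᵥ f i = 0 := by rw [h1]; exact hu3 ⟨i, h⟩
      rw [add_dotProduct, sub_dotProduct, h2, zero_add, zero_sub, abs_neg]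
    · have h1 : i = B ⟨i - (n - 1), by omega⟩ := by
        ext; simp [B]; omega
      have h2 : v ⬝ᵥ f i = 0 := by rw [h1]; exact hv3 _
      rw [add_dotProduct, sub_dotProduct, h2, add_zero, sub_zero])
  obtain ⟨θ, hθ, hall⟩ := hphase
  have h01 : i0 ≠ i1 := by
    intro h
    have := congrArg Fin.val h
    simp [i0, i1] at this
  have hv0 := abs_lt.mp (hv2 i0 h01)
  have hu0 := abs_lt.mp (hu2 i1 h01.symm)
  -- coordinate `i0`
  have a1 : 0 < (u + v) i0 := by rw [Pi.add_apply, hu1]; linarith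
  have a2 : 0 < (u - v) i0 := by rw [Pi.sub_apply, hu1]; linarith
  have a3 := hall i0 (mul_pos a1 a2).ne'
  rw [Real.sign_of_pos a1, Real.sign_of_pos a2] at a3
  -- coordinate `i1`
  have b1 : 0 < (u + v) i1 := by rw [Pi.add_apply, hv1]; linarith
  have b2 : (u - v) i1 < 0 := by rw [Pi.sub_apply, hv1]; linarith
  have b3 := hall i1 (mul_neg_of_pos_of_neg b1 b2).ne
  rw [Real.sign_of_pos b1, Real.sign_of_neg b2] at b3
  linarith

end Pool.Agent.Results.MP_e57dcf_an.NotDense
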